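import Mathlib

/-!
Linear systems of surfaces in complex projective three-space with assigned multiple points.
-/

namespace Pool.Agent.Work.MP_ed30a9_ag

open MvPolynomial

/-- Points of complex projective three-space. -/
abbrev P3 : Type := Projectivization ℂ (Fin 4 → ℂ)

/-- The homogeneous ideal of a point `p`: all polynomials in the four homogeneous coordinates
vanishing on the line of `ℂ ^ 4` that represents `p`. -/
noncomputable def pointIdeal (p : P3) : Ideal (MvPolynomial (Fin 4) ℂ) :=
  vanishingIdeal ℂ (p.submodule : Set (Fin 4 → ℂ))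

/-- The vector space underlying the linear system `L_{3,d}(m_1, ..., m_s)`: forms of degree `d`
with multiplicity at least `m i` at `p i`, that is lying in the `m i`-th power of the ideal of
the point `p i`, for every `i`. -/
noncomputable def linSys (d : ℕ) {s : ℕ} (m : Fin s → ℕ) (p : Fin s → P3) :
    Submodule ℂ (MvPolynomial (Fin 4) ℂ) :=
  homogeneousSubmodule (Fin 4) ℂ d ⊓
    ⨅ i, (pointIdeal (p i) ^ m i).restrictScalars ℂ

/-- Projective dimension of the linear system (`-1` when it is empty). -/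
noncomputable def projDim (d : ℕ) {s : ℕ} (m : Fin s → ℕ) (p : Fin s → P3) : ℤ :=
  (Module.finrank ℂ (linSys d m p) : ℤ) - 1

/-- Virtual dimension. -/
def vdim (d : ℕ) {s : ℕ} (m : Fin s → ℕ) : ℤ :=
  ((d + 3).choose 3 : ℤ) - ∑ i, ((m i + 2).choose 3 : ℤ) - 1

/-- Expected dimension. -/
def edim (d : ℕ) {s : ℕ} (m : Fin s → ℕ) : ℤ := max (vdim d m) (-1)

/-- The system is non-empty. -/
def IsNonEmpty (d : ℕ) {s : ℕ} (m : Fin s → ℕ) (p : Fin s → P3) : Prop := 0 ≤ projDim d m p

/-- The system is special: its dimension exceeds the expected dimension. -/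
def IsSpecial (d : ℕ) {s : ℕ} (m : Fin s → ℕ) (p : Fin s → P3) : Prop :=
  edim d m < projDim d m p

/-- Cremona reduced: `2 d` is at least the sum of any four of the multiplicities. -/
def CremonaReduced (d : ℕ) {s : ℕ} (m : Fin s → ℕ) : Prop :=
  ∀ J : Finset (Fin s), J.card = 4 → ∑ i ∈ J, m i ≤ 2 * d

/-- Triple intersection number on the blow-up of the classes `a H + ∑ b i E i`, each given as the
pair `(a, b)`: `H ^ 3 = 1`, `E i ^ 3 = 1`, all other triple products vanish. -/
def triple {s : ℕ} (D₁ D₂ D₃ : ℤ × (Fin s → ℤ)) : ℤ :=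
  D₁.1 * D₂.1 * D₃.1 + ∑ i, D₁.2 i * D₂.2 i * D₃.2 i

/-- The class `d H - ∑ m i E i` of the linear system. -/
def sysClass (d : ℕ) {s : ℕ} (m : Fin s → ℕ) : ℤ × (Fin s → ℤ) :=
  ((d : ℤ), fun i => -(m i : ℤ))

/-- The canonical class `-4 H + 2 ∑ E i`. -/
def canClass (s : ℕ) : ℤ × (Fin s → ℤ) := (-4, fun _ => 2)

/-- The class `2 H - ∑_{i ∈ I} E i` of the quadric through the points indexed by `I`. -/
def quadricClass {s : ℕ} (I : Finset (Fin s)) : ℤ × (Fin s → ℤ) :=
  (2, fun i => if i ∈ I then -1 else 0)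

/-- Condition 1: some line through two of the points has intersection number at most `-2`. -/
def LineCondition (d : ℕ) {s : ℕ} (m : Fin s → ℕ) : Prop :=
  ∃ i j : Fin s, i ≠ j ∧ (d : ℤ) - m i - m j ≤ -2

/-- Condition 2: some quadric `Q` through nine of the points has `Q (L - Q) (L - K) < 0`. -/
def QuadricCondition (d : ℕ) {s : ℕ} (m : Fin s → ℕ) : Prop :=
  ∃ I : Finset (Fin s), I.card = 9 ∧
    triple (quadricClass I) (sysClass d m - quadricClass I) (sysClass d m - canClass s) < 0

end Pool.Agent.Work.MP_ed30a9_ag
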