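import Pool.Agent.Work.MP_ed30a9_ag.Defs

namespace Pool.Agent.Work.MP_ed30a9_ag

open MvPolynomial

abbrev R4 : Type := MvPolynomial (Fin 4) ℂ

theorem exists_chart (p : P3) : ∃ χ ψ : R4 →ₐ[ℂ] R4, (∀ F, ψ (χ F) = F) ∧
    (∀ d F, IsHomogeneous F d → IsHomogeneous (χ F) d) ∧
    ∀ i : Fin 3, ψ (X i.succ) ∈ pointIdeal p := by
  classical
  obtain ⟨j, hj⟩ : ∃ j, p.rep j ≠ 0 := by
    by_contra h
    push Not at h
    exact p.rep_nonzero (funext h)
  set v := p.rep with hv
  let σ : Equiv.Perm (Fin 4) := Equiv.swap 0 j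
  have hσ0 : ∀ i, σ i = 0 ↔ i = j := by
    intro i
    constructor
    · intro h
      have := congrArg σ h
      simpa [σ] using this
    · rintro rfl
      simp [σ]
  refine ⟨aeval (fun i => if i = j then X 0 else X (σ i) + C (v i / v j) * X 0),
    aeval (fun k => if k = 0 then X j else X (σ k) - C (v (σ k) / v j) * X j), ?_, ?_, ?_⟩
  · intro F
    have : (aeval (fun k => if k = 0 then X j else X (σ k) - C (v (σ k) / v j) * X j) :
        R4 →ₐ[ℂ] R4).comp
        (aeval (fun i => if i = j then X 0 else X (σ i) + C (v i / v j) * X 0)) = AlgHom.id ℂ R4 := by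
      ext1 i
      by_cases h : i = j
      · simp [h]
      · have h' : σ i ≠ 0 := fun h0 => h ((hσ0 i).1 h0)
        have h2 : σ (σ i) = i := by simp [σ]
        simp [h, h', h2]
    exact DFunLike.congr_fun this F
  · intro d F hF
    have := hF.aeval (fun i => if i = j then (X 0 : R4) else X (σ i) + C (v i / v j) * X 0)
      (n := 1) (by
        intro i
        by_cases h : i = j
        · simp only [h, if_true]
          exact isHomogeneous_X _ _
        · simp only [h, if_false]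
          exact (isHomogeneous_X _ _).add (isHomogeneous_C_mul_X _ _))
    simpa using this
  · intro i
    rw [pointIdeal, mem_vanishingIdeal_iff]
    intro x hx
    rw [Projectivization.submodule_eq] at hx
    obtain ⟨t, rfl⟩ := Submodule.mem_span_singleton.1 hx
    have h0 : i.succ ≠ 0 := Fin.succ_ne_zero i
    simp only [aeval_X, h0, if_false, map_sub, map_mul, aeval_C, Pi.smul_apply, smul_eq_mul,
      Algebra.algebraMap_self, RingHom.id_apply, ← hv]
    field_simp
    ring

/-- exponent vector with prescribed last three entries and total degree `d` -/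
noncomputable def expo (d : ℕ) (a : Fin 3 → ℕ) : Fin 4 →₀ ℕ :=
  Finsupp.cons (d - ∑ i, a i) (Finsupp.equivFunOnFinite.symm a)

theorem expo_succ (d : ℕ) (a : Fin 3 → ℕ) (i : Fin 3) : expo d a i.succ = a i := by
  simp [expo]

theorem expo_zero (d : ℕ) (a : Fin 3 → ℕ) : expo d a 0 = d - ∑ i, a i := by
  simp [expo]

theorem expo_degree (d : ℕ) (a : Fin 3 → ℕ) (h : ∑ i, a i ≤ d) : (expo d a).degree = d := by
  rw [Finsupp.degree_eq_sum, Fin.sum_univ_succ, expo_zero]
  simp only [expo_succ]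
  omega

theorem mem_pow_of_coeff (I : Ideal R4) (ψ : R4 →ₐ[ℂ] R4) (hψ : ∀ i : Fin 3, ψ (X i.succ) ∈ I)
    (d m : ℕ) (G : R4) (hG : IsHomogeneous G d)
    (h : ∀ a : Fin 3 → ℕ, ∑ i, a i < m → coeff (expo d a) G = 0) : ψ G ∈ I ^ m := by
  rw [G.as_sum, map_sum]
  refine Ideal.sum_mem _ fun n hn => ?_
  have hn' : coeff n G ≠ 0 := mem_support_iff.1 hn
  have hdeg : n.degree = d := by
    have := hG hn'
    rw [← this, Finsupp.degree_eq_weight_one]
    rfl
  have hsum : n 0 + ∑ i : Fin 3, n i.succ = d := by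
    rw [← hdeg, Finsupp.degree_eq_sum]
    exact (Fin.sum_univ_succ (fun k : Fin 4 => n k)).symm
  have hm : m ≤ ∑ i : Fin 3, n i.succ := by
    by_contra hlt
    push Not at hlt
    apply hn'
    have : n = expo d (fun i => n i.succ) := by
      ext k
      refine Fin.cases ?_ (fun i => ?_) k
      · rw [expo_zero]; omega
      · rw [expo_succ]
    rw [this]
    exact h _ hlt
  rw [monomial_eq, map_mul, Finsupp.prod_fintype _ _ (by simp), map_prod, Fin.prod_univ_succ]
  refine Ideal.mul_mem_left _ _ (Ideal.mul_mem_left _ _ ?_)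
  refine Ideal.pow_le_pow_right hm ?_
  rw [← Finset.prod_pow_eq_pow_sum]
  refine Ideal.prod_mem_prod fun i _ => ?_
  rw [map_pow]
  exact Ideal.pow_mem_pow (hψ i) _

/-- multiplicities of the sextic -/
def m6 : Fin 11 → ℕ := ![3, 3, 3, 3, 3, 3, 3, 2, 2, 2, 1]

abbrev Src : Type := {a : Fin 3 → Fin 7 // ∑ i, (a i : ℕ) ≤ 6}

abbrev Tgt : Type := {x : Fin 11 × (Fin 3 → Fin 3) // ∑ i, (x.2 i : ℕ) < m6 x.1}

theorem card_src : Fintype.card Src = 84 := by decide +kernel

theorem card_tgt : Fintype.card Tgt = 83 := by decide +kernel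

noncomputable def polyOf : (Src → ℂ) →ₗ[ℂ] R4 :=
  ∑ a : Src, (monomial (expo 6 fun i => (a.1 i : ℕ))).comp (LinearMap.proj a)

theorem polyOf_apply (c : Src → ℂ) :
    polyOf c = ∑ a : Src, monomial (expo 6 fun i => (a.1 i : ℕ)) (c a) := by
  simp [polyOf, LinearMap.sum_apply]

theorem polyOf_hom (c : Src → ℂ) : IsHomogeneous (polyOf c) 6 := by
  rw [polyOf_apply]
  exact IsHomogeneous.sum _ _ _ fun a _ => isHomogeneous_monomial _ (expo_degree _ _ a.2)

theorem coeff_polyOf (c : Src → ℂ) (a : Src) :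
    coeff (expo 6 fun i => (a.1 i : ℕ)) (polyOf c) = c a := by
  classical
  rw [polyOf_apply, coeff_sum, Finset.sum_eq_single a]
  · simp
  · intro b _ hb
    rw [coeff_monomial, if_neg]
    intro h
    apply hb
    ext i
    have := congrArg (fun n : Fin 4 →₀ ℕ => n i.succ) h
    simpa only [expo_succ] using this
  · simp

theorem exists_sextic (p : Fin 11 → P3) :
    ∃ F : R4, F ≠ 0 ∧ IsHomogeneous F 6 ∧ ∀ i, F ∈ pointIdeal (p i) ^ m6 i := by
  choose χ ψ h1 h2 h3 using fun i => exists_chart (p i)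
  let Φ : (Src → ℂ) →ₗ[ℂ] (Tgt → ℂ) := LinearMap.pi fun t =>
    (lcoeff ℂ (expo 6 fun i => (t.1.2 i : ℕ))).comp ((χ t.1.1).toLinearMap.comp polyOf)
  have hker : LinearMap.ker Φ ≠ ⊥ := by
    apply LinearMap.ker_ne_bot_of_finrank_lt
    rw [Module.finrank_fintype_fun_eq_card, Module.finrank_fintype_fun_eq_card, card_src, card_tgt]
    norm_num
  obtain ⟨c, hc, hc0⟩ := Submodule.exists_mem_ne_zero_of_ne_bot hker
  refine ⟨polyOf c, ?_, polyOf_hom c, fun i => ?_⟩
  · intro h0
    apply hc0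
    funext a
    rw [← coeff_polyOf c a, h0]
    simp
  · rw [← h1 i (polyOf c)]
    refine mem_pow_of_coeff _ _ (h3 i) 6 _ _ (h2 i _ _ (polyOf_hom c)) fun a ha => ?_
    have h3' : m6 i ≤ 3 := (by decide : ∀ i, m6 i ≤ 3) i
    have hlt : ∀ k, a k < 3 := fun k =>
      lt_of_le_of_lt (Finset.single_le_sum (f := a) (fun _ _ => Nat.zero_le _) (Finset.mem_univ k))
        (lt_of_lt_of_le ha h3')
    have := congrFun (LinearMap.mem_ker.1 hc) ⟨(i, fun k => ⟨a k, hlt k⟩), ha⟩
    simpa [Φ] using this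

instance linSys_finite (d : ℕ) {s : ℕ} (m : Fin s → ℕ) (p : Fin s → P3) :
    Module.Finite ℂ (linSys d m p) := by
  have : Module.Finite ℂ (homogeneousSubmodule (Fin 4) ℂ d) :=
    Module.Finite.of_fg (homogeneousSubmodule_fg _ _ d)
  exact Submodule.finiteDimensional_of_le (S₂ := homogeneousSubmodule (Fin 4) ℂ d) inf_le_left

theorem projDim_nonneg (p : Fin 11 → P3) :
    0 ≤ projDim 12 ![6, 6, 6, 6, 6, 6, 6, 4, 4, 4, 2] p := by
  obtain ⟨F, hF0, hF, hI⟩ := exists_sextic p
  have hmem : F * F ∈ linSys 12 ![6, 6, 6, 6, 6, 6, 6, 4, 4, 4, 2] p := by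
    refine ⟨hF.mul hF, ?_⟩
    simp only [Submodule.coe_iInf, Set.mem_iInter, SetLike.mem_coe,
      Submodule.restrictScalars_mem]
    intro i
    have : (![6, 6, 6, 6, 6, 6, 6, 4, 4, 4, 2] : Fin 11 → ℕ) i = m6 i + m6 i := by
      revert i
      decide
    rw [this, pow_add]
    exact Ideal.mul_mem_mul (hI i) (hI i)
  have hpos : 0 < Module.finrank ℂ (linSys 12 ![6, 6, 6, 6, 6, 6, 6, 4, 4, 4, 2] p) := by
    rw [Module.finrank_pos_iff_exists_ne_zero]
    exact ⟨⟨F * F, hmem⟩, fun h => mul_ne_zero hF0 hF0 (congrArg Subtype.val h)⟩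
  unfold projDim
  omega

theorem edim_eq : edim 12 ![6, 6, 6, 6, 6, 6, 6, 4, 4, 4, 2] = -1 := by
  unfold edim vdim
  decide +kernel

theorem reduced : CremonaReduced 12 ![6, 6, 6, 6, 6, 6, 6, 4, 4, 4, 2] := by
  unfold CremonaReduced
  decide +kernel

theorem not_line : ¬ LineCondition 12 ![6, 6, 6, 6, 6, 6, 6, 4, 4, 4, 2] := by
  unfold LineCondition
  decide +kernel

theorem not_quadric : ¬ QuadricCondition 12 ![6, 6, 6, 6, 6, 6, 6, 4, 4, 4, 2] := by
  unfold QuadricCondition triple quadricClass sysClass canClass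
  decide +kernel

end Pool.Agent.Work.MP_ed30a9_ag
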